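import Pool.Agent.H2.HF.LowC

/-!
# HF Low: lower density `9/25` of the non-Wieferich primes

The same inequality as in `Pool.Agent.H2.HF.LowA`, applied to `(2L, 14L]` instead of `(2L, 18L]`: the non-Wieferich
primes there have `∑ log p ≥ (433/100) L`, so `∑_(p ≤ x, p not Wieferich) log p ≥ (3605/10000) x - C`.
-/

set_option autoImplicit false

namespace Pool.Agent.H88.HF

open Finset Filter Pool.Agent.H80.HF Pool.Agent.H2.HF

open Classical in
/-- the non-Wieferich primes in `(2L, 14L]` -/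
theorem theta_step (hmain : MainIneq) : ∀ᶠ L : ℕ in atTop,
    433 / 100 * (L : ℝ) ≤ ∑ p ∈ (Ioc (2 * L) (14 * L)).filter (fun p => p.Prime ∧ ¬ Wie p), Real.log p := by
  have htend : Tendsto (fun L : ℕ => 14 * L) atTop atTop :=
    tendsto_atTop_mono (fun L => by show L ≤ 14 * L; omega) tendsto_id
  filter_upwards [hmain, htend.eventually (win_lin (1 / 1000000) (by norm_num)),
    htend.eventually (Pool.Agent.H71.NB.win_one (1 / 100000) (by norm_num)),
    eventually_ge_atTop 100000] with L h1 h2 h3 h4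
  have hL : (100000 : ℝ) ≤ L := by exact_mod_cast h4
  have A1 := h2 (2 * L) (14 * L) (by omega) (by omega)
  have A2 := h2 (2 * L) (6 * L) (by omega) (by omega)
  have A3 := h3 (2 * L) (14 * L) (by omega) (by omega)
  push_cast at A1 A2 A3
  set P := (Ioc (2 * L) (14 * L)).filter Nat.Prime with hP
  have hPT : (Ioc (2 * L) (14 * L)).filter (fun p => p.Prime ∧ ¬ Wie p) = P.filter (fun p => ¬ Wie p) := by
    rw [hP, filter_filter]
  rw [hPT]
  set T := P.filter (fun p => ¬ Wie p) with hT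
  set S := P.filter Wie with hS
  have hmemP : ∀ p ∈ P, p.Prime ∧ 2 * L < p ∧ p ≤ 14 * L := by
    intro p hp
    rw [hP, mem_filter, mem_Ioc] at hp
    exact ⟨hp.2, hp.1.1, hp.1.2⟩
  have hlog : ∀ p ∈ P, 0 ≤ Real.log (p : ℝ) := fun p hp =>
    Real.log_natCast_nonneg p
  have B1 : ∑ p ∈ S, ((3 * L - dd p : ℕ) : ℝ) * Real.log p ≤ 10 * (L : ℝ) ^ 2 := by
    refine h1 S fun p hp => ?_
    rw [hS, mem_filter] at hp
    exact ⟨(hmemP p hp.1).1, (hmemP p hp.1).2.1, hp.2⟩
  have B2 : ∑ p ∈ S, ((3 * L - dd p : ℕ) : ℝ) * Real.log p + ∑ p ∈ T, ((3 * L - dd p : ℕ) : ℝ) * Real.log p =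
      ∑ p ∈ P, ((3 * L - dd p : ℕ) : ℝ) * Real.log p := sum_filter_add_sum_filter_not P _ _
  have B3 : ∑ p ∈ P, ((14 * (L : ℝ) - p) / 6 + (2 / 3 * L - 1)) * Real.log p ≤
      ∑ p ∈ P, ((3 * L - dd p : ℕ) : ℝ) * Real.log p := by
    refine sum_le_sum fun p hp => mul_le_mul_of_nonneg_right ?_ (hlog p hp)
    have h5 : 3 * L ≤ (3 * L - dd p) + dd p := by omega
    have h6 : (3 * (L : ℝ)) ≤ ((3 * L - dd p : ℕ) : ℝ) + (dd p : ℝ) := by exact_mod_cast h5
    have h7 : 6 * (dd p : ℝ) ≤ p + 6 := by exact_mod_cast dd_le p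
    linarith
  have B4 : ∑ p ∈ P, ((14 * (L : ℝ) - p) / 6 + (2 / 3 * L - 1)) * Real.log p =
      (1 / 6) * ∑ p ∈ P, (14 * (L : ℝ) - p) * Real.log p + (2 / 3 * L - 1) * ∑ p ∈ P, Real.log p := by
    rw [mul_sum, mul_sum, ← sum_add_distrib]
    refine sum_congr rfl fun p _ => ?_
    ring
  -- the upper bound for the non-Wieferich primes
  have B5 : ∑ p ∈ T, ((3 * L - dd p : ℕ) : ℝ) * Real.log p ≤
      (2 * (L : ℝ) + 1) * ∑ p ∈ T, Real.log p +
        (1 / 6) * ∑ p ∈ (Ioc (2 * L) (6 * L)).filter Nat.Prime, (6 * (L : ℝ) - p) * Real.log p := by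
    have h5 : ∑ p ∈ T.filter (fun p => p ≤ 6 * L), (6 * (L : ℝ) - p) * Real.log p ≤
        ∑ p ∈ (Ioc (2 * L) (6 * L)).filter Nat.Prime, (6 * (L : ℝ) - p) * Real.log p := by
      refine sum_le_sum_of_subset_of_nonneg ?_ ?_
      · intro p hp
        rw [mem_filter, hT, mem_filter] at hp
        have h6 := hmemP p hp.1.1
        rw [mem_filter, mem_Ioc]
        exact ⟨⟨h6.2.1, hp.2⟩, h6.1⟩
      · intro p hp _
        rw [mem_filter, mem_Ioc] at hp
        have h6 : (p : ℝ) ≤ 6 * L := by exact_mod_cast hp.1.2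
        exact mul_nonneg (by linarith) (Real.log_natCast_nonneg p)
    have h6 : ∑ p ∈ T, ((3 * L - dd p : ℕ) : ℝ) * Real.log p ≤
        ∑ p ∈ T, ((2 * (L : ℝ) + 1) * Real.log p +
          (1 / 6) * (if p ≤ 6 * L then (6 * (L : ℝ) - p) * Real.log p else 0)) := by
      refine sum_le_sum fun p hp => ?_
      rw [hT, mem_filter] at hp
      have h7 := hmemP p hp.1
      have h8 : (p : ℝ) ≤ 14 * L := by exact_mod_cast h7.2.2
      have h9 : (p : ℝ) ≤ 6 * dd p + 6 := by exact_mod_cast dd_ge p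
      have h10 : ((3 * L - dd p : ℕ) : ℝ) ≤ (18 * (L : ℝ) - p) / 6 + 1 := by
        rcases Nat.le_total (dd p) (3 * L) with h | h
        · rw [Nat.cast_sub h]
          push_cast
          linarith
        · rw [Nat.sub_eq_zero_of_le h]
          push_cast
          linarith
      have h11 := hlog p hp.1
      split_ifs with h12
      · have : ((3 * L - dd p : ℕ) : ℝ) * Real.log p ≤ ((18 * (L : ℝ) - p) / 6 + 1) * Real.log p :=
          mul_le_mul_of_nonneg_right h10 h11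
        refine this.trans (le_of_eq ?_)
        ring
      · have h13 : (6 * (L : ℝ)) ≤ p := by
          have : 6 * L ≤ p := by omega
          exact_mod_cast this
        have : ((3 * L - dd p : ℕ) : ℝ) * Real.log p ≤ (2 * (L : ℝ) + 1) * Real.log p :=
          mul_le_mul_of_nonneg_right (by linarith) h11
        linarith
    rw [sum_add_distrib, ← mul_sum, ← mul_sum, ← sum_filter] at h6
    linarith
  have B6 : ∑ p ∈ T, Real.log p ≤ ∑ p ∈ P, Real.log p :=
    sum_le_sum_of_subset_of_nonneg (filter_subset _ _) fun p hp _ => hlog p hp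
  set Θ := ∑ p ∈ T, Real.log (p : ℝ) with hΘ
  rw [abs_le] at A1 A2 A3
  obtain ⟨A1a, A1b⟩ := A1
  obtain ⟨A2a, A2b⟩ := A2
  obtain ⟨A3a, A3b⟩ := A3
  have C1 : ∑ p ∈ P, Real.log (p : ℝ) ≤ 13 * L := by linarith
  have C0 : (12 - 14 / 100000) * (L : ℝ) ≤ ∑ p ∈ P, Real.log (p : ℝ) := by linarith
  have C4 : (2 / 3 * (L : ℝ) - 1) * ((12 - 14 / 100000) * (L : ℝ)) ≤
      (2 / 3 * (L : ℝ) - 1) * ∑ p ∈ P, Real.log (p : ℝ) :=
    mul_le_mul_of_nonneg_left C0 (by linarith)
  have C2 : 20 * (L : ℝ) ^ 2 - 1 / 1000 * (L : ℝ) ^ 2 - 12 * L ≤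
      10 * (L : ℝ) ^ 2 + ((2 * (L : ℝ) + 1) * Θ + (4 / 3 + 1 / 1000) * (L : ℝ) ^ 2) := by
    nlinarith
  have C3 : Θ ≤ 13 * L := B6.trans C1
  by_contra hcon
  push Not at hcon
  nlinarith

open Classical in
theorem thN_split (L x : ℕ) (hL : 2 ≤ L) (hx : 14 * L ≤ x) :
    thN (2 * L) + ∑ p ∈ (Ioc (2 * L) (14 * L)).filter (fun p => p.Prime ∧ ¬ Wie p), Real.log p ≤ thN x := by
  unfold thN
  rw [← sum_union]
  · refine sum_le_sum_of_subset_of_nonneg ?_ fun p _ _ => Real.log_natCast_nonneg p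
    intro p hp
    rw [mem_union, mem_filter, mem_filter, mem_Ioc, mem_Ioc] at hp
    rw [mem_filter, mem_Ioc]
    rcases hp with h | h
    · exact ⟨⟨h.1.1, by omega⟩, h.2⟩
    · exact ⟨⟨by omega, by omega⟩, h.2⟩
  · rw [disjoint_left]
    intro p hp hq
    rw [mem_filter, mem_Ioc] at hp hq
    omega

theorem thN_low (hmain : MainIneq) : ∃ C : ℝ, ∀ x : ℕ, 3605 / 10000 * (x : ℝ) - C ≤ thN x := by
  obtain ⟨L0, hL0⟩ := eventually_atTop.1 (theta_step hmain)
  set N := max L0 10000 with hN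
  have hN1 : L0 ≤ N := le_max_left _ _
  have hN2 : 10000 ≤ N := le_max_right _ _
  refine ⟨3605 / 10000 * (14 * N + 14 : ℝ), fun x => ?_⟩
  induction x using Nat.strong_induction_on with
  | _ x ih =>
    rcases Nat.lt_or_ge x (14 * N) with hx | hx
    · have h1 : (x : ℝ) ≤ 14 * N + 14 := by
        have : x ≤ 14 * N + 14 := by omega
        exact_mod_cast this
      have h2 := thN_nonneg x
      nlinarith
    · set L := x / 14 with hL
      have h1 : N ≤ L := by omega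
      have h2 : 14 * L ≤ x := by omega
      have h3 : x ≤ 14 * L + 13 := by omega
      have h4 := ih (2 * L) (by omega)
      have h5 := hL0 L (by omega)
      have h6 := thN_split L x (by omega) h2
      have h7 : (x : ℝ) ≤ 14 * L + 13 := by exact_mod_cast h3
      have h8 : (10000 : ℝ) ≤ L := by exact_mod_cast (hN2.trans h1)
      push_cast at h4
      nlinarith

/-- At least `(9/25) x / log x` non-Wieferich primes `p ≤ x`. -/
theorem low_NW (hmain : MainIneq) : ∃ x₀ : ℕ, ∀ x : ℕ, x₀ ≤ x →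
    9 / 25 * (x : ℝ) / Real.log x ≤ ({p ∈ NonW | p ≤ x}.ncard : ℝ) := by
  obtain ⟨C, hC⟩ := thN_low hmain
  refine ⟨⌈2000 * C⌉₊ + 3, fun x hx => ?_⟩
  have h1 : 2000 * C ≤ x := by
    have h2 := Nat.le_ceil (2000 * C)
    have h3 : ((⌈2000 * C⌉₊ + 3 : ℕ) : ℝ) ≤ x := by exact_mod_cast hx
    push_cast at h3
    linarith
  have h3 : (1 : ℝ) < x := by exact_mod_cast (show 1 < x by omega)
  rw [div_le_iff₀ (Real.log_pos h3)]
  have h4 := hC x
  have h5 := count_ge x (by omega)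
  linarith

/-- At least `(9/25) x / log x` of the primes `p ≤ x` are not Wieferich primes. -/
theorem low_cn (hmain : MainIneq) : ∀ᶠ x : ℕ in atTop, 9 / 25 * ((x : ℝ) / Real.log x) ≤
    Pool.Agent.H71.FD.cn (fun p => 5 ≤ p ∧ ¬ Pool.Agent.H11.NW.Wf p) x := by
  obtain ⟨x₀, h⟩ := low_NW hmain
  filter_upwards [eventually_ge_atTop x₀] with x hx
  have h1 := h x hx
  rw [ncard_eq] at h1
  rw [← mul_div_assoc]
  exact h1

end Pool.Agent.H88.HF
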