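import Mathlib

/-!
# HF, zero estimate: `(3t+2)(3t+4) A(t+2) B(t) = (3t+1)(3t+5) A(t) B(t+2)` implies `A = 0` or `B = 0`

Compare the orders of vanishing at the points `c_n = -1/3 + 2n`: with `φ(n) = ord A - ord B` the identity gives
`φ(n+1) = φ(n) + [n = 0]` (`3t+2`, `3t+4`, `3t+5` have no zero in `-1/3 + 2ℤ`), and `φ(n) = 0` for large `|n|`.
-/

open Polynomial

namespace H88HF

theorem rm_comp {R : Type*} [CommRing R] (p : R[X]) (a t : R) :
    (p.comp (X + C a)).rootMultiplicity t = p.rootMultiplicity (t + a) := by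
  rw [rootMultiplicity_eq_rootMultiplicity (p := p.comp (X + C a)), rootMultiplicity_eq_rootMultiplicity (p := p),
    comp_assoc]
  congr 2
  simp only [add_comp, X_comp, C_comp, C_add]
  ring

/-- integer valued functions with one jump do not have finite support -/
theorem no_jump {φ : ℤ → ℤ} (h : ∀ n, φ (n + 1) = φ n + if n = 0 then 1 else 0) {N : ℤ}
    (hN : ∀ n, N ≤ |n| → φ n = 0) : False := by
  have h1 : ∀ n : ℕ, φ (-(n : ℤ)) = φ 0 := by
    intro n
    induction n with
    | zero => simp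
    | succ n ih =>
      have h2 := h (-((n + 1 : ℕ) : ℤ))
      have h3 : (-((n + 1 : ℕ) : ℤ)) + 1 = -(n : ℤ) := by push_cast; ring
      have h4 : ¬ (-((n + 1 : ℕ) : ℤ)) = 0 := by push_cast; omega
      rw [h3, if_neg h4, add_zero] at h2
      rw [← h2, ih]
  have h2 : ∀ n : ℕ, φ ((n : ℤ) + 1) = φ 0 + 1 := by
    intro n
    induction n with
    | zero =>
      have := h 0
      simpa using this
    | succ n ih =>
      have h3 := h ((n : ℤ) + 1)
      have h4 : ¬ ((n : ℤ) + 1 = 0) := by omega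
      rw [if_neg h4, add_zero] at h3
      push_cast
      rw [h3, ih]
  have h3 := h1 N.toNat
  have h4 := h2 N.toNat
  rw [hN _ (by rw [abs_neg, abs_of_nonneg (by omega)]; omega)] at h3
  rw [hN _ (by rw [abs_of_nonneg (by omega)]; omega)] at h4
  omega

theorem zero_estimate {F : Type*} [Field F] [CharZero F] (A B : F[X])
    (h : (3 * X + 2) * (3 * X + 4) * A.comp (X + C 2) * B = (3 * X + 1) * (3 * X + 5) * A * B.comp (X + C 2)) :
    A = 0 ∨ B = 0 := by
  by_contra hcon
  push Not at hcon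
  obtain ⟨hA, hB⟩ := hcon
  have hlin : ∀ b : F, (3 * X + C b : F[X]) ≠ 0 := by
    intro b h0
    have h1 := congrArg (fun q : F[X] => q.coeff 1) h0
    simp only [coeff_add, coeff_zero, coeff_C_succ, add_zero] at h1
    rw [show (3 : F[X]) = C 3 from rfl, coeff_C_mul, coeff_X_one, mul_one] at h1
    exact three_ne_zero h1
  have hcomp : ∀ q : F[X], q ≠ 0 → q.comp (X + C 2) ≠ 0 := by
    intro q hq h0
    apply hq
    have h1 := congrArg (fun r : F[X] => r.comp (X - C 2)) h0
    simp only [comp_assoc, zero_comp] at h1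
    have h2 : ((X + C 2 : F[X]).comp (X - C 2)) = X := by
      simp
    rwa [h2, comp_X] at h1
  set c : ℤ → F := fun n => -1 / 3 + 2 * (n : F) with hc
  have h3 : (3 : F) ≠ 0 := three_ne_zero
  have hcn : ∀ n : ℤ, 3 * c n = -1 + 6 * (n : F) := by
    intro n
    rw [hc]
    field_simp
    ring
  have hev : ∀ (b : ℤ) (n : ℤ), b + 6 * n ≠ 1 → (3 * X + C (b : F) : F[X]).rootMultiplicity (c n) = 0 := by
    intro b n hbn
    apply rootMultiplicity_eq_zero
    rw [IsRoot.def]
    simp only [eval_add, eval_mul, eval_X, eval_C, eval_ofNat]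
    rw [hcn]
    intro h0
    apply hbn
    have h1 : ((b + 6 * n : ℤ) : F) = ((1 : ℤ) : F) := by
      push_cast
      linear_combination h0
    exact_mod_cast h1
  have hC3 : (3 : F[X]) = C 3 := (map_ofNat C 3).symm
  have hone : (3 * X + C ((1 : ℤ) : F) : F[X]).rootMultiplicity (c 0) = 1 := by
    have h1 : (3 * X + C ((1 : ℤ) : F) : F[X]) = C 3 * (X - C (c 0)) := by
      rw [mul_sub, ← C_mul, hcn, hC3]
      simp
    have h2 : (C 3 * (X - C (c 0)) : F[X]) ≠ 0 := by
      rw [← h1]
      exact hlin _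
    rw [h1, rootMultiplicity_mul h2, rootMultiplicity_C, rootMultiplicity_X_sub_C_self]
  set φ : ℤ → ℤ := fun n => (A.rootMultiplicity (c n) : ℤ) - (B.rootMultiplicity (c n) : ℤ) with hφ
  have hstep : ∀ n, φ (n + 1) = φ n + if n = 0 then 1 else 0 := by
    intro n
    have e2 : (2 : F[X]) = C ((2 : ℤ) : F) := by rw [Int.cast_ofNat]; exact (map_ofNat C 2).symm
    have e4 : (4 : F[X]) = C ((4 : ℤ) : F) := by rw [Int.cast_ofNat]; exact (map_ofNat C 4).symm
    have e1 : (1 : F[X]) = C ((1 : ℤ) : F) := by rw [Int.cast_one, C_1]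
    have e5 : (5 : F[X]) = C ((5 : ℤ) : F) := by rw [Int.cast_ofNat]; exact (map_ofNat C 5).symm
    have hcs : c n + 2 = c (n + 1) := by
      rw [hc]
      push_cast
      ring
    have h1 := congrArg (rootMultiplicity (c n)) h
    rw [e2, e4, e1, e5] at h1
    have hl := hlin
    rw [rootMultiplicity_mul (mul_ne_zero (mul_ne_zero (mul_ne_zero (hl _) (hl _)) (hcomp A hA)) hB),
      rootMultiplicity_mul (mul_ne_zero (mul_ne_zero (hl _) (hl _)) (hcomp A hA)),
      rootMultiplicity_mul (mul_ne_zero (hl _) (hl _)),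
      rootMultiplicity_mul (mul_ne_zero (mul_ne_zero (mul_ne_zero (hl _) (hl _)) hA) (hcomp B hB)),
      rootMultiplicity_mul (mul_ne_zero (mul_ne_zero (hl _) (hl _)) hA),
      rootMultiplicity_mul (mul_ne_zero (hl _) (hl _)), rm_comp, rm_comp, hcs,
      hev 2 n (by omega), hev 4 n (by omega), hev 5 n (by omega)] at h1
    show (A.rootMultiplicity (c (n + 1)) : ℤ) - (B.rootMultiplicity (c (n + 1)) : ℤ) =
      (A.rootMultiplicity (c n) : ℤ) - (B.rootMultiplicity (c n) : ℤ) + _
    by_cases hn : n = 0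
    · rw [if_pos hn]
      rw [hn] at h1 ⊢
      rw [hone] at h1
      omega
    · rw [if_neg hn]
      rw [hev 1 n (by omega)] at h1
      omega
  have hinj : Function.Injective c := by
    intro m n hmn
    have h1 : (m : F) = (n : F) := by
      have h2 := congrArg (fun x => 3 * x) hmn
      simp only [hcn] at h2
      have h6 : (6 : F) ≠ 0 := by norm_num
      exact mul_left_cancel₀ h6 (by linear_combination h2)
    exact_mod_cast h1
  have hfin : {n : ℤ | (A * B).IsRoot (c n)}.Finite :=
    (finite_setOfPred_isRoot (mul_ne_zero hA hB)).preimage hinj.injOn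
  obtain ⟨N, hN⟩ : ∃ N : ℤ, ∀ n, (A * B).IsRoot (c n) → |n| < N := by
    obtain ⟨M, hM⟩ := (hfin.image (fun n : ℤ => |n|)).bddAbove
    exact ⟨M + 1, fun n hn => by
      have := hM ⟨n, hn, rfl⟩
      show |n| < M + 1
      simp only at this
      omega⟩
  refine no_jump hstep (N := N) fun n hn => ?_
  have h1 : ¬ (A * B).IsRoot (c n) := fun h2 => absurd (hN n h2) (not_lt.2 hn)
  rw [IsRoot.def, eval_mul, mul_eq_zero, not_or] at h1
  show (A.rootMultiplicity (c n) : ℤ) - (B.rootMultiplicity (c n) : ℤ) = 0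
  rw [rootMultiplicity_eq_zero h1.1, rootMultiplicity_eq_zero h1.2]
  simp

/-- a polynomial with too many triple zeros is zero -/
theorem eq_zero_of_triple {F : Type*} [Field F] (E : F[X]) (s : Finset F) (h : ∀ a ∈ s, (X - C a) ^ 3 ∣ E)
    (hdeg : E.natDegree < 3 * s.card) : E = 0 := by
  classical
  by_contra hE
  have h1 : ∏ a ∈ s, (X - C a) ^ 3 ∣ E := by
    refine Finset.prod_dvd_of_coprime (fun a _ b _ hab => ?_) h
    exact (pairwise_coprime_X_sub_C Function.injective_id hab).pow
  have h2 := natDegree_le_of_dvd h1 hE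
  rw [natDegree_prod_of_monic _ _ fun a _ => (monic_X_sub_C a).pow 3] at h2
  simp only [(monic_X_sub_C _).natDegree_pow, natDegree_X_sub_C, mul_one, Finset.sum_const, smul_eq_mul] at h2
  omega

theorem dvd_of_taylor {F : Type*} [Field F] (E : F[X]) (a : F)
    (h : (PowerSeries.X : PowerSeries F) ^ 3 ∣ ((taylor a E : F[X]) : PowerSeries F)) : (X - C a) ^ 3 ∣ E := by
  rw [PowerSeries.X_pow_dvd_iff] at h
  have h1 : (X : F[X]) ^ 3 ∣ taylor a E := by
    rw [X_pow_dvd_iff]
    intro d hd
    have := h d hd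
    rwa [coeff_coe] at this
  obtain ⟨Q, hQ⟩ := h1
  refine ⟨Q.comp (X - C a), ?_⟩
  have h2 : E = (taylor a E).comp (X - C a) := by
    rw [taylor_apply, comp_assoc]
    simp
  rw [h2, hQ, mul_comp, pow_comp, X_comp]

/-- The full zero estimate: `A - G_a B` vanishes to order `3` at the `M + 1` nodes `a₀ + 2 i`. -/
theorem zero_full {F : Type*} [Field F] [CharZero F] (A B : F[X]) (G : ℕ → PowerSeries F) (a₀ : F) (M : ℕ)
    (hrec : ∀ i, i < M →
      ((3 * (X + C (a₀ + 2 * (i : F))) + 2 : F[X]) : PowerSeries F) *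
          ((3 * (X + C (a₀ + 2 * (i : F))) + 4 : F[X]) : PowerSeries F) * G (i + 1) =
        ((3 * (X + C (a₀ + 2 * (i : F))) + 1 : F[X]) : PowerSeries F) *
          ((3 * (X + C (a₀ + 2 * (i : F))) + 5 : F[X]) : PowerSeries F) * G i)
    (hG : ∀ i, i ≤ M → PowerSeries.constantCoeff (G i) ≠ 0)
    (hjet : ∀ i, i ≤ M → (PowerSeries.X : PowerSeries F) ^ 3 ∣
      ((taylor (a₀ + 2 * (i : F)) A : F[X]) : PowerSeries F) -
        G i * ((taylor (a₀ + 2 * (i : F)) B : F[X]) : PowerSeries F))
    (hdeg : A.natDegree + B.natDegree + 2 < 3 * M) : A = 0 ∧ B = 0 := by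
  classical
  have hinj : Function.Injective (fun i : ℕ => a₀ + 2 * (i : F)) := by
    intro i j hij
    have h1 : (2 : F) * (i : F) = 2 * (j : F) := add_left_cancel hij
    exact_mod_cast mul_left_cancel₀ two_ne_zero h1
  have hcard : ∀ m : ℕ, ((Finset.range m).image (fun i : ℕ => a₀ + 2 * (i : F))).card = m := by
    intro m
    rw [Finset.card_image_of_injective _ hinj, Finset.card_range]
  have hE : (3 * X + 2) * (3 * X + 4) * A.comp (X + C 2) * B - (3 * X + 1) * (3 * X + 5) * A * B.comp (X + C 2) = 0 := by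
    apply eq_zero_of_triple _ ((Finset.range M).image (fun i : ℕ => a₀ + 2 * (i : F)))
    · intro a ha
      obtain ⟨i, hi, rfl⟩ := Finset.mem_image.1 ha
      have hi' := Finset.mem_range.1 hi
      apply dvd_of_taylor
      obtain ⟨U, hU⟩ := hjet i hi'.le
      obtain ⟨V, hV⟩ := hjet (i + 1) hi'
      have hr := hrec i hi'
      have hs : a₀ + 2 * ((i + 1 : ℕ) : F) = 2 + (a₀ + 2 * (i : F)) := by push_cast; ring
      have hc : ∀ q : F[X], taylor (a₀ + 2 * (i : F)) (q.comp (X + C 2)) = taylor (a₀ + 2 * ((i + 1 : ℕ) : F)) q := by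
        intro q
        rw [hs, taylor_apply, taylor_apply, comp_assoc]
        congr 1
        simp only [add_comp, X_comp, C_comp, C_add]
        ring
      rw [map_sub, taylor_mul, taylor_mul, taylor_mul, taylor_mul, taylor_mul, taylor_mul, hc, hc]
      have h2 : taylor (a₀ + 2 * (i : F)) (3 * X + 2 : F[X]) = 3 * (X + C (a₀ + 2 * (i : F))) + 2 := by
        simp [taylor_apply]
      have h4 : taylor (a₀ + 2 * (i : F)) (3 * X + 4 : F[X]) = 3 * (X + C (a₀ + 2 * (i : F))) + 4 := by
        simp [taylor_apply]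
      have h1 : taylor (a₀ + 2 * (i : F)) (3 * X + 1 : F[X]) = 3 * (X + C (a₀ + 2 * (i : F))) + 1 := by
        simp [taylor_apply]
      have h5 : taylor (a₀ + 2 * (i : F)) (3 * X + 5 : F[X]) = 3 * (X + C (a₀ + 2 * (i : F))) + 5 := by
        simp [taylor_apply]
      rw [h2, h4, h1, h5]
      rw [coe_sub, coe_mul, coe_mul, coe_mul, coe_mul, coe_mul, coe_mul]
      set P2 : PowerSeries F := ((3 * (X + C (a₀ + 2 * (i : F))) + 2 : F[X]) : PowerSeries F)
      set P4 : PowerSeries F := ((3 * (X + C (a₀ + 2 * (i : F))) + 4 : F[X]) : PowerSeries F)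
      set P1 : PowerSeries F := ((3 * (X + C (a₀ + 2 * (i : F))) + 1 : F[X]) : PowerSeries F)
      set P5 : PowerSeries F := ((3 * (X + C (a₀ + 2 * (i : F))) + 5 : F[X]) : PowerSeries F)
      set A0 : PowerSeries F := ((taylor (a₀ + 2 * (i : F)) A : F[X]) : PowerSeries F)
      set B0 : PowerSeries F := ((taylor (a₀ + 2 * (i : F)) B : F[X]) : PowerSeries F)
      set A1 : PowerSeries F := ((taylor (a₀ + 2 * ((i + 1 : ℕ) : F)) A : F[X]) : PowerSeries F)
      set B1 : PowerSeries F := ((taylor (a₀ + 2 * ((i + 1 : ℕ) : F)) B : F[X]) : PowerSeries F)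
      refine ⟨P2 * P4 * V * B0 - P1 * P5 * U * B1, ?_⟩
      linear_combination P2 * P4 * B0 * hV - P1 * P5 * B1 * hU + B0 * B1 * hr
    · rw [hcard]
      refine lt_of_le_of_lt ?_ hdeg
      have hl : ∀ b : ℕ, ((3 * X + (b : F[X])) : F[X]).natDegree ≤ 1 := by
        intro b
        compute_degree
      have hcd : ∀ q : F[X], (q.comp (X + C 2)).natDegree = q.natDegree := by
        intro q
        rw [natDegree_comp, natDegree_X_add_C, mul_one]
      have hb : ∀ (b c : ℕ) (P Q : F[X]), ((3 * X + (b : F[X])) * (3 * X + (c : F[X])) * P * Q).natDegree ≤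
          P.natDegree + Q.natDegree + 2 := by
        intro b c P Q
        have e1 := hl b
        have e2 := hl c
        have e3 := natDegree_mul_le (p := (3 * X + (b : F[X])) * (3 * X + (c : F[X])) * P) (q := Q)
        have e4 := natDegree_mul_le (p := (3 * X + (b : F[X])) * (3 * X + (c : F[X]))) (q := P)
        have e5 := natDegree_mul_le (p := (3 * X + (b : F[X]))) (q := (3 * X + (c : F[X])))
        omega
      refine (natDegree_sub_le _ _).trans (max_le ?_ ?_)
      · have := hb 2 4 (A.comp (X + C 2)) B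
        rw [hcd] at this
        exact_mod_cast this
      · have := hb 1 5 A (B.comp (X + C 2))
        rw [hcd] at this
        exact_mod_cast this
  have hlast : ∀ q : F[X], (∀ i, i ≤ M → (PowerSeries.X : PowerSeries F) ^ 3 ∣
      ((taylor (a₀ + 2 * (i : F)) q : F[X]) : PowerSeries F)) → q.natDegree < 3 * M → q = 0 := by
    intro q hq hqd
    apply eq_zero_of_triple q ((Finset.range (M + 1)).image (fun i : ℕ => a₀ + 2 * (i : F)))
    · intro a ha
      obtain ⟨i, hi, rfl⟩ := Finset.mem_image.1 ha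
      exact dvd_of_taylor _ _ (hq i (Nat.lt_succ_iff.1 (Finset.mem_range.1 hi)))
    · rw [hcard]
      omega
  rcases zero_estimate A B (sub_eq_zero.1 hE) with hA | hB
  · refine ⟨hA, hlast B (fun i hi => ?_) (by omega)⟩
    have h1 := hjet i hi
    rw [hA, map_zero, coe_zero, zero_sub, dvd_neg] at h1
    have hu : IsUnit (G i) := by
      rw [PowerSeries.isUnit_iff_constantCoeff]
      exact isUnit_iff_ne_zero.2 (hG i hi)
    exact (hu.dvd_mul_left).1 h1
  · refine ⟨hlast A (fun i hi => ?_) (by omega), hB⟩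
    have h1 := hjet i hi
    rw [hB, map_zero, coe_zero, mul_zero, sub_zero] at h1
    exact h1

/-- One step form: `(3X+1) A(X) A(X+1) = (3X+2) B(X) B(X+1)` implies `A = B = 0`. -/
theorem zero_one {F : Type*} [Field F] [CharZero F] (A B : F[X])
    (h : (3 * X + 1) * A * A.comp (X + C 1) = (3 * X + 2) * B * B.comp (X + C 1)) : A = 0 ∧ B = 0 := by
  have hlin : ∀ b : F, (3 * X + C b : F[X]) ≠ 0 := by
    intro b h0
    have h1 := congrArg (fun q : F[X] => q.coeff 1) h0
    simp only [coeff_add, coeff_zero, coeff_C_succ, add_zero] at h1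
    rw [show (3 : F[X]) = C 3 from rfl, coeff_C_mul, coeff_X_one, mul_one] at h1
    exact three_ne_zero h1
  have e2 : (2 : F[X]) = C ((2 : ℤ) : F) := by rw [Int.cast_ofNat]; exact (map_ofNat C 2).symm
  have e1 : (1 : F[X]) = C ((1 : ℤ) : F) := by rw [Int.cast_one, C_1]
  have hcomp : ∀ q : F[X], q ≠ 0 → q.comp (X + C 1) ≠ 0 := by
    intro q hq h0
    apply hq
    have h1 := congrArg (fun r : F[X] => r.comp (X - C 1)) h0
    simp only [comp_assoc, zero_comp] at h1
    have h2 : ((X + C 1 : F[X]).comp (X - C 1)) = X := by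
      simp
    rwa [h2, comp_X] at h1
  rw [e1, e2] at h
  by_cases hA : A = 0
  · refine ⟨hA, ?_⟩
    by_contra hB
    rw [hA, mul_zero, zero_mul] at h
    exact mul_ne_zero (mul_ne_zero (hlin _) hB) (hcomp B hB) h.symm
  by_cases hB : B = 0
  · exfalso
    rw [hB, mul_zero, zero_mul] at h
    exact mul_ne_zero (mul_ne_zero (hlin _) hA) (hcomp A hA) h
  exfalso
  set c : ℤ → F := fun n => -1 / 3 + (n : F) with hc
  have hcn : ∀ n : ℤ, 3 * c n = -1 + 3 * (n : F) := by
    intro n
    rw [hc]
    have h3 : (3 : F) ≠ 0 := three_ne_zero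
    field_simp
  have hev : ∀ (b : ℤ) (n : ℤ), b + 3 * n ≠ 1 → (3 * X + C (b : F) : F[X]).rootMultiplicity (c n) = 0 := by
    intro b n hbn
    apply rootMultiplicity_eq_zero
    rw [IsRoot.def]
    simp only [eval_add, eval_mul, eval_X, eval_C, eval_ofNat]
    rw [hcn]
    intro h0
    apply hbn
    have h1 : ((b + 3 * n : ℤ) : F) = ((1 : ℤ) : F) := by
      push_cast
      linear_combination h0
    exact_mod_cast h1
  have hC3 : (3 : F[X]) = C 3 := (map_ofNat C 3).symm
  have hone : (3 * X + C ((1 : ℤ) : F) : F[X]).rootMultiplicity (c 0) = 1 := by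
    have h1 : (3 * X + C ((1 : ℤ) : F) : F[X]) = C 3 * (X - C (c 0)) := by
      rw [mul_sub, ← C_mul, hcn, hC3]
      simp
    have h2 : (C 3 * (X - C (c 0)) : F[X]) ≠ 0 := by
      rw [← h1]
      exact hlin _
    rw [h1, rootMultiplicity_mul h2, rootMultiplicity_C, rootMultiplicity_X_sub_C_self]
  set φ : ℤ → ℤ := fun n => (A.rootMultiplicity (c n) : ℤ) - (B.rootMultiplicity (c n) : ℤ) with hφ
  have hstep0 : ∀ n, φ (n + 1) = -φ n - if n = 0 then 1 else 0 := by
    intro n
    have hcs : c n + 1 = c (n + 1) := by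
      rw [hc]
      push_cast
      ring
    have h1 := congrArg (rootMultiplicity (c n)) h
    have hl := hlin
    rw [rootMultiplicity_mul (mul_ne_zero (mul_ne_zero (hl _) hA) (hcomp A hA)),
      rootMultiplicity_mul (mul_ne_zero (hl _) hA),
      rootMultiplicity_mul (mul_ne_zero (mul_ne_zero (hl _) hB) (hcomp B hB)),
      rootMultiplicity_mul (mul_ne_zero (hl _) hB), rm_comp, rm_comp, hcs, hev 2 n (by omega)] at h1
    show (A.rootMultiplicity (c (n + 1)) : ℤ) - (B.rootMultiplicity (c (n + 1)) : ℤ) =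
      -((A.rootMultiplicity (c n) : ℤ) - (B.rootMultiplicity (c n) : ℤ)) - _
    by_cases hn : n = 0
    · rw [if_pos hn]
      rw [hn] at h1 ⊢
      rw [hone] at h1
      omega
    · rw [if_neg hn]
      rw [hev 1 n (by omega)] at h1
      omega
  have hinj : Function.Injective c := by
    intro m n hmn
    have h1 : (m : F) = (n : F) := add_left_cancel hmn
    exact_mod_cast h1
  have hfin : {n : ℤ | (A * B).IsRoot (c n)}.Finite :=
    (finite_setOfPred_isRoot (mul_ne_zero hA hB)).preimage hinj.injOn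
  obtain ⟨N, hN⟩ : ∃ N : ℤ, ∀ n, (A * B).IsRoot (c n) → |n| < N := by
    obtain ⟨M, hM⟩ := (hfin.image (fun n : ℤ => |n|)).bddAbove
    exact ⟨M + 1, fun n hn => by
      have := hM ⟨n, hn, rfl⟩
      show |n| < M + 1
      simp only at this
      omega⟩
  set ψ : ℤ → ℤ := fun n => ((n.negOnePow : ℤˣ) : ℤ) * φ n with hψ
  have hstep : ∀ n, ψ (n + 1) = ψ n + if n = 0 then 1 else 0 := by
    intro n
    show (((n + 1).negOnePow : ℤˣ) : ℤ) * φ (n + 1) = ((n.negOnePow : ℤˣ) : ℤ) * φ n + _
    rw [hstep0, Int.negOnePow_succ]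
    by_cases hn : n = 0
    · rw [if_pos hn, hn]
      simp
      ring
    · rw [if_neg hn]
      push_cast
      ring
  refine no_jump hstep (N := N) fun n hn => ?_
  have h1 : ¬ (A * B).IsRoot (c n) := fun h2 => absurd (hN n h2) (not_lt.2 hn)
  rw [IsRoot.def, eval_mul, mul_eq_zero, not_or] at h1
  show ((n.negOnePow : ℤˣ) : ℤ) * ((A.rootMultiplicity (c n) : ℤ) - (B.rootMultiplicity (c n) : ℤ)) = 0
  rw [rootMultiplicity_eq_zero h1.1, rootMultiplicity_eq_zero h1.2]
  simp

/-- The zero estimate, one step form: `A - G_i B` vanishes to order `3` at the `M + 1` nodes `a₀ + i`, and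
`(3 X + 1) G_i G_(i+1) = 3 X + 2` at the nodes. -/
theorem zero_one_full {F : Type*} [Field F] [CharZero F] (A B : F[X]) (G : ℕ → PowerSeries F) (a₀ : F) (M : ℕ)
    (hrec : ∀ i, i < M →
      ((3 * (X + C (a₀ + (i : F))) + 1 : F[X]) : PowerSeries F) * G i * G (i + 1) =
        ((3 * (X + C (a₀ + (i : F))) + 2 : F[X]) : PowerSeries F))
    (hjet : ∀ i, i ≤ M → (PowerSeries.X : PowerSeries F) ^ 3 ∣
      ((taylor (a₀ + (i : F)) A : F[X]) : PowerSeries F) -
        G i * ((taylor (a₀ + (i : F)) B : F[X]) : PowerSeries F))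
    {n : ℕ} (hA : A.natDegree < n) (hB : B.natDegree < n) (hn : 2 * n ≤ 3 * M) : A = 0 ∧ B = 0 := by
  classical
  have hinj : Function.Injective (fun i : ℕ => a₀ + (i : F)) := by
    intro i j hij
    have h1 : (i : F) = (j : F) := add_left_cancel hij
    exact_mod_cast h1
  have hE : (3 * X + 1) * A * A.comp (X + C 1) - (3 * X + 2) * B * B.comp (X + C 1) = 0 := by
    apply eq_zero_of_triple _ ((Finset.range M).image (fun i : ℕ => a₀ + (i : F)))
    · intro a ha
      obtain ⟨i, hi, rfl⟩ := Finset.mem_image.1 ha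
      have hi' := Finset.mem_range.1 hi
      apply dvd_of_taylor
      obtain ⟨U, hU⟩ := hjet i hi'.le
      obtain ⟨V, hV⟩ := hjet (i + 1) hi'
      have hr := hrec i hi'
      have hs : a₀ + ((i + 1 : ℕ) : F) = 1 + (a₀ + (i : F)) := by push_cast; ring
      have hc : ∀ q : F[X], taylor (a₀ + (i : F)) (q.comp (X + C 1)) = taylor (a₀ + ((i + 1 : ℕ) : F)) q := by
        intro q
        rw [hs, taylor_apply, taylor_apply, comp_assoc]
        congr 1
        simp only [add_comp, X_comp, C_comp, C_add]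
        ring
      rw [map_sub, taylor_mul, taylor_mul, taylor_mul, taylor_mul, hc, hc]
      have h1 : taylor (a₀ + (i : F)) (3 * X + 1 : F[X]) = 3 * (X + C (a₀ + (i : F))) + 1 := by
        simp [taylor_apply]
      have h2 : taylor (a₀ + (i : F)) (3 * X + 2 : F[X]) = 3 * (X + C (a₀ + (i : F))) + 2 := by
        simp [taylor_apply]
      rw [h2, h1]
      rw [coe_sub, coe_mul, coe_mul, coe_mul, coe_mul]
      set P2 : PowerSeries F := ((3 * (X + C (a₀ + (i : F))) + 2 : F[X]) : PowerSeries F)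
      set P1 : PowerSeries F := ((3 * (X + C (a₀ + (i : F))) + 1 : F[X]) : PowerSeries F)
      set A0 : PowerSeries F := ((taylor (a₀ + (i : F)) A : F[X]) : PowerSeries F)
      set B0 : PowerSeries F := ((taylor (a₀ + (i : F)) B : F[X]) : PowerSeries F)
      set A1 : PowerSeries F := ((taylor (a₀ + ((i + 1 : ℕ) : F)) A : F[X]) : PowerSeries F)
      set B1 : PowerSeries F := ((taylor (a₀ + ((i + 1 : ℕ) : F)) B : F[X]) : PowerSeries F)
      refine ⟨P1 * U * A1 + P1 * G i * B0 * V, ?_⟩
      linear_combination P1 * A1 * hU + P1 * G i * B0 * hV + B0 * B1 * hr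
    · rw [Finset.card_image_of_injective _ hinj, Finset.card_range]
      have hl : ∀ b : ℕ, ((3 * X + (b : F[X])) : F[X]).natDegree ≤ 1 := by
        intro b
        compute_degree
      have hcd : ∀ q : F[X], (q.comp (X + C 1)).natDegree = q.natDegree := by
        intro q
        rw [natDegree_comp, natDegree_X_add_C, mul_one]
      have hb : ∀ (b : ℕ) (P : F[X]), ((3 * X + (b : F[X])) * P * P.comp (X + C 1)).natDegree ≤
          2 * P.natDegree + 1 := by
        intro b P
        have e1 := hl b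
        have e3 := natDegree_mul_le (p := (3 * X + (b : F[X])) * P) (q := P.comp (X + C 1))
        have e4 := natDegree_mul_le (p := (3 * X + (b : F[X]))) (q := P)
        rw [hcd] at e3
        omega
      have h1 : ((3 * X + 1) * A * A.comp (X + C 1)).natDegree ≤ 2 * A.natDegree + 1 := by
        have := hb 1 A
        exact_mod_cast this
      have h2 : ((3 * X + 2) * B * B.comp (X + C 1)).natDegree ≤ 2 * B.natDegree + 1 := by
        have := hb 2 B
        exact_mod_cast this
      have h3 := natDegree_sub_le ((3 * X + 1) * A * A.comp (X + C 1)) ((3 * X + 2) * B * B.comp (X + C 1))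
      have h4 : max ((3 * X + 1) * A * A.comp (X + C 1)).natDegree ((3 * X + 2) * B * B.comp (X + C 1)).natDegree <
          3 * M := max_lt (by omega) (by omega)
      exact lt_of_le_of_lt h3 h4
  exact zero_one A B (sub_eq_zero.1 hE)

end H88HF
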